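import Pool.Agent.Q163.WD.Neg
import Pool.Agent.Q163.WD.OddErg

set_option autoImplicit false

/-!
# Ergodic theorems along the orbits of the Syracuse map on the negative odd integers

Let `S` be a set of negative odd integers which is invariant under the Syracuse map (the basin of a cycle,
the set of the divergent orbits, the complement of the basins of the known cycles, ...). The pointwise
ergodic theorem holds along the `n` with `-(2 n - 1) ∈ S`, for every measure preserving transformation and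
every integrable function. If one orbit does not enter the three known cycles, then the return times of a
generic point of an ergodic system to a set of positive measure have a positive proportion of `n` such that
the orbit of `-(2 n - 1)` does not enter them.
-/

namespace Pool.Agent.Results.MP_005f52_nt.ErgodicAverages

open Filter Topology MeasureTheory

/-- The Syracuse map. -/
def Syr (N : ℤ) : ℤ := (3 * N + 1) / 2 ^ padicValInt 2 (3 * N + 1)

/-- `S` is invariant under the Syracuse map, among the negative odd integers. -/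
def Invariant (S : Set ℤ) : Prop := ∀ N : ℤ, N < 0 → Odd N → (N ∈ S ↔ Syr N ∈ S)

/-- The union of the three known cycles. -/
def Known : Finset ℤ := {-1, -5, -7, -17, -25, -37, -55, -41, -61, -91}

/-- The integers whose orbit enters one of the known cycles. -/
def Basin : Set ℤ := {N | ∃ k : ℕ, Syr^[k] N ∈ Known}

/-- The number of the `n` in `[1, N]` such that the `n`-th negative odd number `-(2 n - 1)` is in `S`. -/
noncomputable def number (S : Set ℤ) (N : ℕ) : ℕ :=
  {n : ℕ | 1 ≤ n ∧ n ≤ N ∧ -(2 * (n : ℤ) - 1) ∈ S}.ncard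

/-- The sum of `w n` over the `n` in `[1, N]` such that `-(2 n - 1)` is in `S`. -/
noncomputable def sumAlong (S : Set ℤ) (N : ℕ) (w : ℕ → ℝ) : ℝ :=
  ∑ n ∈ Finset.Icc 1 N, S.indicator (fun _ => (1 : ℝ)) (-(2 * (n : ℤ) - 1)) * w n

/-! ### proofs -/

open Pool.Agent.Q163.WD.Neg (Lift lift_inv sinv_known sinv_compl)
open Pool.Agent.Q163.WD.OddErg (oind)

theorem lift_P {S : Set ℤ} (hS : Invariant S) : MP_edb5be_nt.PointwiseErgodicTheorem.Invariant (Lift S) :=
  fun x => lift_inv hS x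

theorem mem_lift (S : Set ℤ) {n : ℕ} (hn : 1 ≤ n) :
    (-1) * (2 * (n : ℤ) - 1) ∈ Lift S ↔ -(2 * (n : ℤ) - 1) ∈ S := by
  rw [neg_one_mul]
  exact Pool.Agent.Q163.WD.Neg.lift_odd S (by omega) (by omega)

theorem oind_eq (S : Set ℤ) {n : ℕ} (hn : 1 ≤ n) :
    oind (-1) (Lift S) n = S.indicator (fun _ => (1 : ℝ)) (-(2 * (n : ℤ) - 1)) := by
  unfold oind
  have h := mem_lift S hn
  by_cases h1 : -(2 * (n : ℤ) - 1) ∈ S
  · rw [Set.indicator_of_mem h1, Set.indicator_of_mem (h.2 h1)]
  · rw [Set.indicator_of_notMem h1, Set.indicator_of_notMem (fun h2 => h1 (h.1 h2))]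

theorem sum_eq (S : Set ℤ) (N : ℕ) (w : ℕ → ℝ) :
    ∑ n ∈ Finset.Icc 1 N, oind (-1) (Lift S) n * w n = sumAlong S N w := by
  unfold sumAlong
  apply Finset.sum_congr rfl
  intro n hn
  rw [Finset.mem_Icc] at hn
  rw [oind_eq S hn.1]

theorem num_eq (S : Set ℤ) (N : ℕ) : ∑ n ∈ Finset.Icc 1 N, oind (-1) (Lift S) n = number S N := by
  classical
  have h := sum_eq S N (fun _ => 1)
  simp only [mul_one] at h
  rw [h]
  unfold sumAlong number
  have e3 : {n : ℕ | 1 ≤ n ∧ n ≤ N ∧ -(2 * (n : ℤ) - 1) ∈ S} =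
      ((Finset.Icc 1 N).filter (fun n : ℕ => -(2 * (n : ℤ) - 1) ∈ S) : Finset ℕ) := by
    ext n
    simp only [Set.mem_ofPred_eq, Finset.coe_filter, Finset.mem_Icc, and_assoc]
  rw [e3, Set.ncard_coe_finset, Finset.card_filter]
  push_cast
  apply Finset.sum_congr rfl
  intro n _
  rw [mul_one, Set.indicator_apply]

theorem basin_inv : Invariant Basin := sinv_known

/-- **The theorem.** (0) `Basin` is invariant; the complement of an invariant set is invariant.
(1) THE POINTWISE ERGODIC THEOREM. For every measure preserving transformation `R` of a probability space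
and every integrable function `g`, for almost every point `x`: (a) for `N ≥ N₀(ε, x)`, for ALL invariant
sets `S`, the sum of `g (R ^ n x)` over the `n ≤ N` with `-(2 n - 1) ∈ S` is `δ` times the sum over all
`n ≤ N`, up to `ε N`; here `δ` is the density of `S` among the negative odd integers (it exists, and is
positive if `S` contains a negative odd integer); (b) the averages of `g (R ^ n x)` over the `n ≤ N` with
`-(2 n - 1) ∈ S` converge to the conditional expectation of `g`, for ALL invariant `S` which contain a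
negative odd integer.
(2) THE QUESTION. For every ergodic transformation `R`, every set `A` of positive measure, every `ψ ≥ 0`
with limit `0` and every invariant set `S`: all negative odd integers are in `S` if and only if, with
positive probability in `x`, there are infinitely many `N` such that at most `ψ(N) N` of the return times
`n ≤ N` (with `R ^ n x ∈ A`) are such that `-(2 n - 1) ∉ S`. In particular this holds for the set of the
integers whose orbit enters one of the three known cycles. -/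
theorem result :
    (Invariant Basin ∧ ∀ S : Set ℤ, Invariant S → Invariant Sᶜ) ∧
    -- (1) the pointwise ergodic theorem
    (∀ (X : Type) [MeasurableSpace X] (μ : Measure X) [IsProbabilityMeasure μ] (R : X → X)
      (g : X → ℝ), MeasurePreserving R μ μ → Integrable g μ → ∀ᵐ x ∂μ,
      (∀ ε : ℝ, 0 < ε → ∃ N₀ : ℕ, ∀ S : Set ℤ, Invariant S → ∃ δ : ℝ,
        Tendsto (fun N : ℕ => (number S N : ℝ) / N) atTop (𝓝 δ) ∧ ((∃ y ∈ S, y < 0 ∧ Odd y) → 0 < δ) ∧
        ∀ N : ℕ, N₀ ≤ N →
          |sumAlong S N (fun n => g (R^[n] x)) - δ * ∑ n ∈ Finset.Icc 1 N, g (R^[n] x)| ≤ ε * N) ∧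
      (∀ S : Set ℤ, Invariant S → (∃ y ∈ S, y < 0 ∧ Odd y) →
        Tendsto (fun N : ℕ => sumAlong S N (fun n => g (R^[n] x)) / number S N) atTop
          (𝓝 ((μ[g | MeasurableSpace.invariants R]) x)))) ∧
    -- (2) the question: return times
    (∀ (X : Type) [MeasurableSpace X] (μ : Measure X) [IsProbabilityMeasure μ] (R : X → X) (A : Set X),
      Ergodic R μ → MeasurableSet A → 0 < μ A → ∀ ψ : ℕ → ℝ, (∀ N, 0 ≤ ψ N) → Tendsto ψ atTop (𝓝 0) →
      (∀ S : Set ℤ, Invariant S → ((∀ y : ℤ, y < 0 → Odd y → y ∈ S) ↔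
        ¬ ∀ᵐ x ∂μ, ¬ ∃ᶠ N : ℕ in atTop,
          ({n : ℕ | 1 ≤ n ∧ n ≤ N ∧ -(2 * (n : ℤ) - 1) ∉ S ∧ R^[n] x ∈ A}.ncard : ℝ) ≤ ψ N * N)) ∧
      ((∀ y : ℤ, y < 0 → Odd y → ∃ k : ℕ, Syr^[k] y ∈ Known) ↔
        ¬ ∀ᵐ x ∂μ, ¬ ∃ᶠ N : ℕ in atTop,
          ({n : ℕ | 1 ≤ n ∧ n ≤ N ∧ -(2 * (n : ℤ) - 1) ∉ Basin ∧ R^[n] x ∈ A}.ncard : ℝ) ≤
            ψ N * N)) := by
  have hne : ∀ S : Set ℤ, (∃ y ∈ S, y < 0 ∧ Odd y) → ∃ y ∈ Lift S, 0 < (-1) * y := by
    rintro S ⟨y, hy, h0, hodd⟩
    exact ⟨y, (Pool.Agent.Q163.WD.Neg.lift_odd S h0 (Int.odd_iff.1 hodd)).2 hy, by omega⟩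
  have hnum : ∀ S : Set ℤ, Invariant S → ∀ δ : ℝ,
      MP_edb5be_nt.PointwiseErgodicTheorem.HasDensity (-1) (Lift S) δ →
      Tendsto (fun N : ℕ => (number S N : ℝ) / N) atTop (𝓝 δ) := by
    intro S hS δ hδ
    have h := Pool.Agent.Q163.WD.OddErg.odd_number (Or.inr rfl) (lift_P hS) hδ
    refine h.congr fun N => ?_
    rw [num_eq]
  have hq : ∀ (X : Type) [MeasurableSpace X] (μ : Measure X) [IsProbabilityMeasure μ] (R : X → X)
      (A : Set X), Ergodic R μ → MeasurableSet A → 0 < μ A → ∀ ψ : ℕ → ℝ, (∀ N, 0 ≤ ψ N) →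
      Tendsto ψ atTop (𝓝 0) → ∀ S : Set ℤ, Invariant S → ((∀ y : ℤ, y < 0 → Odd y → y ∈ S) ↔
        ¬ ∀ᵐ x ∂μ, ¬ ∃ᶠ N : ℕ in atTop,
          ({n : ℕ | 1 ≤ n ∧ n ≤ N ∧ -(2 * (n : ℤ) - 1) ∉ S ∧ R^[n] x ∈ A}.ncard : ℝ) ≤ ψ N * N) := by
    intro X _ μ _ R A hR hA hpos ψ hψ0 hψ S hS
    constructor
    · intro hall hcon
      have hfalse : ∀ᵐ x ∂μ, False := by
        filter_upwards [hcon] with x hx
        apply hx
        apply Filter.Frequently.of_forall
        intro N
        have e : {n : ℕ | 1 ≤ n ∧ n ≤ N ∧ -(2 * (n : ℤ) - 1) ∉ S ∧ R^[n] x ∈ A} = ∅ := by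
          rw [Set.eq_empty_iff_forall_notMem]
          rintro n ⟨g1, -, g2, -⟩
          exact g2 (hall _ (by omega) (Int.odd_iff.2 (by omega)))
        rw [e, Set.ncard_empty]
        have := hψ0 N
        push_cast
        positivity
      rw [eventually_false_iff_eq_bot, ae_eq_bot] at hfalse
      exact IsProbabilityMeasure.ne_zero μ hfalse
    · intro h y h0 hodd
      by_contra hcon
      apply h
      obtain ⟨δ, hδ0, hδ⟩ := Pool.Agent.Q163.WD.Pos.dens_pos (s := -1) (Or.inr rfl) (S := Lift Sᶜ)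
        (fun x => lift_inv (sinv_compl hS) x) (hne _ ⟨y, hcon, h0, hodd⟩)
      have h3 := Pool.Agent.Q163.WD.OddErg.odd_rare (s := -1) (Or.inr rfl) μ R A hR hA hpos hψ
        (S := Lift Sᶜ) (lift_P (sinv_compl hS)) hδ hδ0
      filter_upwards [h3] with x hx hx'
      refine hx (hx'.mono fun N hN => ?_)
      refine le_trans (le_of_eq ?_) hN
      congr 2
      ext m
      simp only [Set.mem_ofPred_eq]
      refine and_congr_right fun hm => and_congr_right fun _ => and_congr_left fun _ => ?_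
      rw [mem_lift _ hm]
      rfl
  refine ⟨⟨basin_inv, fun S hS => sinv_compl hS⟩, ?_, fun X _ μ _ R A hR hA hpos ψ hψ0 hψ =>
    ⟨hq X μ R A hR hA hpos ψ hψ0 hψ, hq X μ R A hR hA hpos ψ hψ0 hψ Basin basin_inv⟩⟩
  intro X _ μ _ R g hR hg
  filter_upwards [Pool.Agent.Q163.WD.OddErg.odd_unif (Or.inr rfl) μ R g hR hg,
    Pool.Agent.Q163.WD.OddErg.odd_averages (s := -1) (Or.inr rfl) μ R g hR hg] with x hx1 hx2
  constructor
  · intro ε hε
    obtain ⟨N₀, h⟩ := hx1 ε hε
    refine ⟨N₀, fun S hS => ?_⟩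
    obtain ⟨δ, hδ, h3⟩ := h (Lift S) (lift_P hS)
    refine ⟨δ, hnum S hS δ hδ, fun hn => ?_, fun N hN => ?_⟩
    · obtain ⟨δ', hδ0, hδ'⟩ := Pool.Agent.Q163.WD.Pos.dens_pos (s := -1) (Or.inr rfl) (S := Lift S)
        (fun x => lift_inv hS x) (hne S hn)
      rwa [tendsto_nhds_unique hδ hδ']
    · rw [← sum_eq]
      exact h3 N hN
  · intro S hS hn
    obtain ⟨δ, hδ0, hδ⟩ := Pool.Agent.Q163.WD.Pos.dens_pos (s := -1) (Or.inr rfl) (S := Lift S)
      (fun x => lift_inv hS x) (hne S hn)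
    have h := hx2 (Lift S) (lift_P hS) δ hδ hδ0
    refine h.congr fun N => ?_
    rw [sum_eq, num_eq]

end Pool.Agent.Results.MP_005f52_nt.ErgodicAverages
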