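import Mathlib
import Pool.Agent.Q235.CO.NG

set_option autoImplicit false

/-!
The basins of the cycles of the Syracuse map on the negative odd integers, and the entrance times into the
cycles, in arithmetical test sets.

The negative odd integers are written `N = -n`. A test set is given by inequalities for arbitrary real additive
functions of `n` (the number of prime factors, `log (σ(n) / n)`, ...), and an arbitrary condition on the value of
an additive function with few values at the primes (the vector of the numbers of prime factors in given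
arbitrary sets of primes, ...) and on the list of the `k` largest prime factors of `n`. No regularity is
assumed, and the sets may depend on `X` in any way. The densities of the basins, the equidistribution of the
entrance times (the numbers of steps of `Syr`) in residue classes and their normal law are the same in all test
sets, up to `ε X`, uniformly; and Q1 is decided by the behaviour of almost all elements of one sequence of test
sets of positive proportion.
-/

namespace Pool.Agent.Results.MP_005f52_nt.NegativeOddArithmetic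

open Filter Topology Finset

/-- The Syracuse map. -/
def Syr (N : ℤ) : ℤ := (3 * N + 1) / 2 ^ padicValInt 2 (3 * N + 1)

/-- `Z` is the set of the terms of a periodic orbit of negative odd integers. -/
def IsCycle (Z : Finset ℤ) : Prop :=
  ∃ (a : ℤ) (p : ℕ), a < 0 ∧ Odd a ∧ 1 ≤ p ∧ Syr^[p] a = a ∧
    Z = (Finset.range p).image fun i => Syr^[i] a

/-- The orbit of `N` enters `Z` after exactly `k` steps. -/
def Enters (Z : Finset ℤ) (k : ℕ) (N : ℤ) : Prop := Syr^[k] N ∈ Z ∧ ∀ i < k, Syr^[i] N ∉ Z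

/-- Among the negative odd integers, those with the property `P` have natural density `δ`:
`2 / X` times the number of negative odd `N ≥ -X` with `P N` tends to `δ`. -/
def HasDensity (P : ℤ → Prop) (δ : ℝ) : Prop :=
  Tendsto (fun X : ℕ => 2 / (X : ℝ) * ({N : ℤ | -(X : ℤ) ≤ N ∧ N < 0 ∧ Odd N ∧ P N}.ncard : ℝ))
    atTop (𝓝 δ)

/-- `log |N| / log (4/3) + x * log 2 * √(2 log |N| / (log (4/3))^3)` -/
noncomputable def bound (x : ℝ) (N : ℤ) : ℝ :=
  1 / Real.log (4 / 3) * Real.log |(N : ℝ)|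
    + x * (Real.log 2 * Real.sqrt (2 * Real.log |(N : ℝ)| / Real.log (4 / 3) ^ 3))

/-- The distribution function of the standard normal law. -/
noncomputable def Phi (x : ℝ) : ℝ :=
  ProbabilityTheory.cdf (ProbabilityTheory.gaussianReal 0 1) x

/-- The orbit of `N` enters `Z` after `k ≤ bound x N` steps, `k ≡ b` modulo `q`. -/
def Level (Z : Finset ℤ) (q : ℕ) (b : ℤ) (x : ℝ) (N : ℤ) : Prop :=
  ∃ k : ℕ, Enters Z k N ∧ (k : ℝ) ≤ bound x N ∧ (k : ℤ) ≡ b [ZMOD q]

/-- the three known cycles -/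
def C₁ : Finset ℤ := {-1}

/-- the three known cycles -/
def C₂ : Finset ℤ := {-5, -7}

/-- the three known cycles -/
def C₃ : Finset ℤ := {-17, -25, -37, -55, -41, -61, -91}

/-- A multiplicative function with values in the closed unit disc. -/
def Multiplicative (g : ℕ → ℂ) : Prop :=
  (∀ n, ‖g n‖ ≤ 1) ∧ ∀ m n : ℕ, Nat.Coprime m n → g (m * n) = g m * g n

/-- An additive function with values in a commutative monoid. -/
def Additive {A : Type} [AddCommMonoid A] (f : ℕ → A) : Prop :=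
  ∀ m n : ℕ, Nat.Coprime m n → f (m * n) = f m + f n

/-- `u` has at most `r` different values at the primes. -/
def FewValues {A : Type} (r : ℕ) (u : ℕ → A) : Prop :=
  ∃ V : Finset A, V.card ≤ r ∧ ∀ p : ℕ, p.Prime → u p ∈ V

/-- The `k` largest prime factors of `n`, with multiplicity, in decreasing order (all prime factors, if `n` has
fewer than `k`). -/
def top (k n : ℕ) : List ℕ := n.primeFactorsList.reverse.take k

/-- The test sets: `f i n ∈ I i` for `d` real additive functions `f i` and intervals `I i`, and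
`(u n, top k n) ∈ B` for an additive function `u` with at most `r` values at the primes and any set `B`. -/
def IsTest (d r k : ℕ) (E : Set ℕ) : Prop :=
  ∃ (f : Fin d → ℕ → ℝ) (I : Fin d → Set ℝ) (A : Type) (_ : AddCommMonoid A) (u : ℕ → A) (B : Set (A × List ℕ)),
    (∀ i, Additive (f i)) ∧ (∀ i, (I i).OrdConnected) ∧ Additive u ∧ FewValues r u ∧
    E = {n : ℕ | (∀ i, f i n ∈ I i) ∧ (u n, top k n) ∈ B}

open scoped Classical in
/-- The odd positive integers `n ≤ X` in `E`. -/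
noncomputable def Odds (X : ℕ) (E : Set ℕ) : Finset ℕ := (Icc 1 X).filter fun n => Odd n ∧ n ∈ E

open scoped Classical in
/-- The number of the odd positive integers `n ≤ X` in `E` such that `-n` has the property `P`. -/
noncomputable def Count (X : ℕ) (P : ℤ → Prop) (E : Set ℕ) : ℕ := ((Odds X E).filter fun n : ℕ => P (-(n : ℤ))).card

open scoped Classical in
/-- Among the negative odd integers the property `P` has the frequency `l`, independently of the arithmetical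
nature: for all `d`, `r`, `k` and `ε > 0`, if `X` is large, then for every test set `E` the number of the odd
`n ≤ X` in `E` such that `-n` has the property `P` is `l` times the number of the odd `n ≤ X` in `E`, up to `ε X`;
and the sum of `(1_P(-n) - l) g(n)` over the odd `n ≤ X` in `E` is at most `ε X` in absolute value for all
multiplicative `g` with values in the unit disc. -/
def Independent (P : ℤ → Prop) (l : ℝ) : Prop := ∀ (d r k : ℕ) (ε : ℝ), 0 < ε → ∃ X₀ : ℕ, ∀ X : ℕ, X₀ ≤ X →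
  ∀ E : Set ℕ, IsTest d r k E →
    |(Count X P E : ℝ) - l * (Odds X E).card| ≤ ε * X ∧
    ∀ g : ℕ → ℂ, Multiplicative g → ‖∑ n ∈ Odds X E, ((if P (-(n : ℤ)) then (1 : ℂ) else 0) - l) * g n‖ ≤ ε * X

open Pool.Agent.W26.HN Pool.Agent.H499R2.ND in
theorem density_of {P : ℤ → Prop} {δ : ℝ} (h : Dn (fun n : ℕ => n % 2 = 1 ∧ P (-(n : ℤ))) (δ / 2)) :
    HasDensity P δ := by
  unfold HasDensity
  have h1 := h.const_mul 2
  rw [mul_div_cancel₀ δ (by norm_num : (2 : ℝ) ≠ 0)] at h1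
  refine h1.congr fun X => ?_
  have e : {N : ℤ | -(X : ℤ) ≤ N ∧ N < 0 ∧ Odd N ∧ P N}
      = (fun n : ℕ => -(n : ℤ)) '' {n : ℕ | 1 ≤ n ∧ n ≤ X ∧ n % 2 = 1 ∧ P (-(n : ℤ))} := by
    ext N
    constructor
    · rintro ⟨g1, g2, g3, g4⟩
      have g3' := Int.odd_iff.1 g3
      refine ⟨N.natAbs, ⟨by omega, by omega, by omega, ?_⟩, ?_⟩
      · have : -((N.natAbs : ℕ) : ℤ) = N := by omega
        rw [this]; exact g4
      · show -((N.natAbs : ℕ) : ℤ) = N
        omega
    · rintro ⟨n, ⟨g1, g2, g3, g4⟩, rfl⟩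
      refine ⟨?_, ?_, ?_, g4⟩
      · show -(X : ℤ) ≤ -(n : ℤ)
        omega
      · show -(n : ℤ) < 0
        omega
      · rw [Int.odd_iff]
        show -(n : ℤ) % 2 = 1
        omega
  rw [e, Set.ncard_image_of_injective _ (fun a b hab => by
    have : -(a : ℤ) = -(b : ℤ) := hab
    omega)]
  unfold cnt
  ring

theorem log_abs (n : ℕ) : Real.log |((-(n : ℤ) : ℤ) : ℝ)| = Real.log n := by
  have : |((-(n : ℤ) : ℤ) : ℝ)| = n := by
    push_cast
    rw [abs_neg, abs_of_nonneg (Nat.cast_nonneg n)]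
  rw [this]

theorem bound_eq (x : ℝ) (n : ℕ) : bound x (-(n : ℤ)) = Pool.Agent.H499R2.HL.bo x (Real.log n) := by
  unfold bound Pool.Agent.H499R2.HL.bo
  rw [log_abs]

theorem syr_eq {N M : ℤ} (v : ℕ) (h : 3 * N + 1 = 2 ^ v * M) (hM : M % 2 = 1) : Syr N = M :=
  Pool.Agent.W26.HN.Sy_eq h hM

theorem s1 : Syr (-1) = -1 := syr_eq 1 (by norm_num) (by norm_num)
theorem s5 : Syr (-5) = -7 := syr_eq 1 (by norm_num) (by norm_num)
theorem s7 : Syr (-7) = -5 := syr_eq 2 (by norm_num) (by norm_num)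
theorem s17 : Syr (-17) = -25 := syr_eq 1 (by norm_num) (by norm_num)
theorem s25 : Syr (-25) = -37 := syr_eq 1 (by norm_num) (by norm_num)
theorem s37 : Syr (-37) = -55 := syr_eq 1 (by norm_num) (by norm_num)
theorem s55 : Syr (-55) = -41 := syr_eq 2 (by norm_num) (by norm_num)
theorem s41 : Syr (-41) = -61 := syr_eq 1 (by norm_num) (by norm_num)
theorem s61 : Syr (-61) = -91 := syr_eq 1 (by norm_num) (by norm_num)
theorem s91 : Syr (-91) = -17 := syr_eq 4 (by norm_num) (by norm_num)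

theorem cycle₁ : IsCycle C₁ := by
  refine ⟨-1, 1, by norm_num, by decide, le_rfl, by rw [Function.iterate_one, s1], ?_⟩
  rw [show Finset.range 1 = {0} from rfl, Finset.image_singleton]
  rfl

theorem cycle₂ : IsCycle C₂ := by
  have h1 : Syr^[1] (-5) = -7 := by rw [Function.iterate_one, s5]
  have h2 : Syr^[2] (-5) = -5 := by rw [Function.iterate_succ_apply', h1, s7]
  refine ⟨-5, 2, by norm_num, by decide, by norm_num, h2, ?_⟩
  rw [show Finset.range 2 = {0, 1} from rfl, Finset.image_insert, Finset.image_singleton, h1]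
  rfl

theorem cycle₃ : IsCycle C₃ := by
  have h1 : Syr^[1] (-17) = -25 := by rw [Function.iterate_one, s17]
  have h2 : Syr^[2] (-17) = -37 := by rw [Function.iterate_succ_apply', h1, s25]
  have h3 : Syr^[3] (-17) = -55 := by rw [Function.iterate_succ_apply', h2, s37]
  have h4 : Syr^[4] (-17) = -41 := by rw [Function.iterate_succ_apply', h3, s55]
  have h5 : Syr^[5] (-17) = -61 := by rw [Function.iterate_succ_apply', h4, s41]
  have h6 : Syr^[6] (-17) = -91 := by rw [Function.iterate_succ_apply', h5, s61]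
  have h7 : Syr^[7] (-17) = -17 := by rw [Function.iterate_succ_apply', h6, s91]
  refine ⟨-17, 7, by norm_num, by decide, by norm_num, h7, ?_⟩
  rw [show Finset.range 7 = {0, 1, 2, 3, 4, 5, 6} from rfl]
  simp only [Finset.image_insert, Finset.image_singleton, h1, h2, h3, h4, h5, h6]
  rfl

/-- the trajectories of the elements of a cycle are bounded -/
theorem cyc_bd {Z : Finset ℤ} (hZ : Pool.Agent.W26.HN.IsCyc Z) : ∃ B : ℕ, Pool.Agent.Y964.LW.Bd Z B := by
  have h1 : ∀ y : ℤ, ∃ B : ℕ, y ∈ Z → ∀ i : ℕ, |(Pool.Agent.H499R2.ND.Td 1)^[i] y| ≤ B := by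
    intro y
    by_cases hy : y ∈ Z
    · obtain ⟨j0, hj0⟩ := (Pool.Agent.W26.HN.cyc_mem hZ hy y).1 hy
      obtain ⟨hy0, hyo⟩ := Pool.Agent.W26.HN.cyc_odd hZ hy
      obtain ⟨a, p, ha, hao, hp, hpa, hZe⟩ := hZ
      obtain ⟨i0, _, hi0⟩ := Finset.mem_image.1 (hZe ▸ hy)
      have hpy : Pool.Agent.W26.HN.Sy^[p] y = y := by
        rw [← hi0, ← Function.iterate_add_apply, Nat.add_comm, Function.iterate_add_apply, hpa]
      obtain ⟨k, hk, hky⟩ := Pool.Agent.W26.HN.Sy_iter hyo p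
      rw [hpy] at hky
      have hper : Function.IsPeriodicPt (Pool.Agent.H499R2.ND.Td 1) k y := hky
      refine ⟨∑ i ∈ range k, ((Pool.Agent.H499R2.ND.Td 1)^[i] y).natAbs, fun _ i => ?_⟩
      rw [← hper.iterate_mod_apply i]
      have h2 : ((Pool.Agent.H499R2.ND.Td 1)^[i % k] y).natAbs ≤
          ∑ i ∈ range k, ((Pool.Agent.H499R2.ND.Td 1)^[i] y).natAbs :=
        Finset.single_le_sum (f := fun i => ((Pool.Agent.H499R2.ND.Td 1)^[i] y).natAbs)
          (fun _ _ => Nat.zero_le _) (Finset.mem_range.2 (Nat.mod_lt _ (by omega)))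
      rw [Int.abs_eq_natAbs]
      exact_mod_cast h2
    · exact ⟨0, fun h => absurd h hy⟩
  choose B hB using h1
  refine ⟨∑ y ∈ Z, B y, fun y hy i => (hB y hy i).trans ?_⟩
  exact_mod_cast Finset.single_le_sum (f := B) (fun _ _ => Nat.zero_le _) hy

theorem test_of {d r k : ℕ} {E : Set ℕ} (h : IsTest d r k E) : Pool.Agent.Q235.CO.Tst d r k E := by
  obtain ⟨f, I, A, inst, u, B, h1, h2, h3, h4, h5⟩ := h
  exact ⟨f, I, A, inst, u, B, h1, h2, h3, h4, h5⟩

open scoped Classical in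
theorem sum_odds {c : ℕ → ℂ} (g : ℕ → ℂ) (N : ℕ) (E : Set ℕ) :
    ∑ m ∈ Odds N E, c m * g m = ∑ n ∈ Icc 1 N, if n ∈ E then (if n % 2 = 1 then c n else 0) * g n else 0 := by
  unfold Odds
  rw [sum_filter]
  apply sum_congr rfl
  intro n _
  by_cases h1 : n ∈ E <;> by_cases h2 : n % 2 = 1
  · rw [if_pos ⟨Nat.odd_iff.2 h2, h1⟩, if_pos h1, if_pos h2]
  · rw [if_neg (fun h => h2 (Nat.odd_iff.1 h.1)), if_pos h1, if_neg h2, zero_mul]
  · rw [if_neg (fun h => h1 h.2), if_neg h1]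
  · rw [if_neg (fun h => h1 h.2), if_neg h1]

open scoped Classical in
theorem independent_of {P : ℤ → Prop} {l : ℝ}
    (h : Pool.Agent.Q235.CO.Bd (fun _ n => if n % 2 = 1 then (if P (-(n : ℤ)) then (1 : ℂ) else 0) - l else 0)) :
    Independent P l := by
  intro d r k ε hε
  obtain ⟨N0, H⟩ := Pool.Agent.Q235.CO.Bd_test h d r k hε
  refine ⟨N0, fun N hN E hE => ?_⟩
  have key : ∀ g : ℕ → ℂ, Multiplicative g →
      ‖∑ m ∈ Odds N E, ((if P (-(m : ℤ)) then (1 : ℂ) else 0) - l) * g m‖ ≤ ε * N := by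
    intro g hg
    rw [sum_odds (c := fun m => (if P (-(m : ℤ)) then (1 : ℂ) else 0) - l)]
    exact H N hN E (test_of hE) g hg
  refine ⟨?_, key⟩
  have h1 := key (fun _ => 1) ⟨fun _ => by simp, fun _ _ _ => by simp⟩
  refine le_trans (le_of_eq ?_) h1
  rw [← Real.norm_eq_abs, ← Complex.norm_real]
  congr 1
  simp only [mul_one]
  unfold Count
  rw [sum_sub_distrib, sum_const, nsmul_eq_mul, card_filter]
  have e2 : ((((∑ m ∈ Odds N E, if P (-(m : ℤ)) then 1 else 0 : ℕ) : ℝ)) : ℂ)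
      = ∑ m ∈ Odds N E, if P (-(m : ℤ)) then (1 : ℂ) else 0 := by
    rw [Complex.ofReal_natCast, Nat.cast_sum]
    exact sum_congr rfl fun m _ => by split_ifs <;> simp
  rw [Complex.ofReal_sub, e2]
  push_cast
  ring

/-- limit laws -/
theorem Independent.lim {P : ℤ → Prop} {l : ℝ} (hP : Independent P l) {d r k : ℕ}
    {E : ℕ → Set ℕ} (hE : ∀ N, IsTest d r k (E N)) {p : ℝ}
    (h : Tendsto (fun N : ℕ => ((Odds N (E N)).card : ℝ) / N) atTop (𝓝 p)) :
    Tendsto (fun N : ℕ => (Count N P (E N) : ℝ) / N) atTop (𝓝 (l * p)) := by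
  have h0 : Tendsto (fun N : ℕ => (Count N P (E N) : ℝ) / N
      - l * (((Odds N (E N)).card : ℝ) / N)) atTop (𝓝 0) := by
    rw [Metric.tendsto_atTop]
    intro ε hε
    obtain ⟨N0, H⟩ := hP d r k (ε / 2) (by positivity)
    refine ⟨N0 + 1, fun N hN => ?_⟩
    have hN0 : (0 : ℝ) < N := by exact_mod_cast (by omega : 0 < N)
    have h1 := (H N (by omega) (E N) (hE N)).1
    rw [Real.dist_eq, sub_zero]
    have e1 : (Count N P (E N) : ℝ) / N - l * (((Odds N (E N)).card : ℝ) / N)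
        = ((Count N P (E N) : ℝ) - l * (Odds N (E N)).card) / N := by ring
    rw [e1, abs_div, abs_of_pos hN0, div_lt_iff₀ hN0]
    nlinarith
  have h1 := h0.add (h.const_mul l)
  rw [zero_add] at h1
  refine h1.congr fun N => ?_
  ring

/-- sufficient sets -/
theorem Independent.suff {P : ℤ → Prop} {l : ℝ} (hP : Independent P l) (hl : l ≤ 1) {d r k : ℕ}
    {E : ℕ → Set ℕ} (hE : ∀ N, IsTest d r k (E N)) {κ : ℝ} {ψ : ℕ → ℝ} (hκ : 0 < κ) (hψ : Tendsto ψ atTop (𝓝 0))
    (h : ∃ᶠ X : ℕ in atTop, κ * X ≤ (Odds X (E X)).card ∧ (Count X (fun N => ¬ P N) (E X) : ℝ) ≤ ψ X * X) :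
    l = 1 := by
  classical
  by_contra hcon
  have hδ1 : 0 < 1 - l := by
    rcases hl.lt_or_eq with h6 | h6
    · linarith
    · exact absurd h6 hcon
  obtain ⟨N0, H⟩ := hP d r k ((1 - l) * κ / 2) (by positivity)
  have h6 : ∀ᶠ N : ℕ in atTop, ψ N < (1 - l) * κ / 2 := (tendsto_order.1 hψ).2 _ (by positivity)
  obtain ⟨N, ⟨h7, h8⟩, h9, h10⟩ := (h.and_eventually (h6.and (eventually_ge_atTop (N0 + 1)))).exists
  have hNp : (0 : ℝ) < N := by exact_mod_cast (by omega : 0 < N)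
  have h11 := (abs_le.1 (H N (by omega) (E N) (hE N)).1).2
  have h12 : ((Odds N (E N)).card : ℝ) = Count N P (E N) + Count N (fun N => ¬ P N) (E N) := by
    unfold Count
    have h13 := Finset.card_filter_add_card_filter_not (s := Odds N (E N)) (fun n : ℕ => P (-(n : ℤ)))
    rw [← h13]
    push_cast
    congr!
  have h15 : ψ N * N < (1 - l) * κ / 2 * N := mul_lt_mul_of_pos_right h9 hNp
  have h16 : (1 - l) * (κ * N) ≤ (1 - l) * (Odds N (E N)).card :=
    mul_le_mul_of_nonneg_left h7 hδ1.le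
  linarith

open Pool.Agent.W26.HN in
/-- the frequency of an invariant set -/
theorem inv_rel {S : Set ℤ} (hS : ∀ N : ℤ, N < 0 → N % 2 = 1 → (N ∈ S ↔ Sy N ∈ S)) {d : ℝ} (h0 : 0 ≤ d) (h1 : d ≤ 1)
    (hd : Pool.Agent.H499R2.ND.HD (-1) (Lift S) d) : Independent (fun N => N ∈ S) d := by
  have h1 := Pool.Agent.Q235.CO.inv_rx (s := -1) (Or.inr rfl) (lift_inv hS) h0 h1 (Pool.Agent.H499R2.LT.dn_side hd)
  apply independent_of
  refine Pool.Agent.Q235.CO.Bd_odd h1 1 (fun n hn ho => ?_)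
  rw [neg_cast]
  exact lift_odd (by omega) (by omega)

open Pool.Agent.W26.HN Pool.Agent.H499R2.ND in
/-- the laws for one cycle -/
theorem one_cyc {Z : Finset ℤ} (hZ : IsCyc Z) : ∃ d : ℝ, 0 < d ∧
    Dn (fun n : ℕ => n % 2 = 1 ∧ -(n : ℤ) ∈ Ba Z) (d / 2) ∧
    Independent (fun N => ∃ k : ℕ, Syr^[k] N ∈ Z) d ∧
    (∀ (q : ℕ) (b : ℤ) (x : ℝ), 1 ≤ q →
      Independent (Level Z q b x) (d * NegativeOddArithmetic.Phi x / q)) := by
  have hodd : ∀ y ∈ Z, y % 2 = 1 := fun y hy => (cyc_odd hZ hy).2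
  obtain ⟨B, hB⟩ := cyc_bd hZ
  obtain ⟨d, h0, h1, hpos, hE, hRL, hlaw⟩ := Pool.Agent.Q235.CO.ent_rx (s := -1) (Or.inr rfl) hodd hB
  obtain ⟨y, hy, hy0, _, hy3⟩ := cyc_nonempty hZ
  have key : ∀ (R : ℕ → Prop) (R' : ℤ → Prop), (∀ j : ℕ, R j ↔ R' (j : ℤ)) → ∀ n : ℕ, 0 < n → n % 2 = 1 →
      ((∃ k, E Z k (-1 * (n : ℤ)) ∧ R' (Pool.Agent.H499R2.LT.od 1 k (-1 * (n : ℤ)))) ↔
        ∃ k : ℕ, Enters Z k (-(n : ℤ)) ∧ R k) := by
    intro R R' hR n hn ho'
    rw [neg_cast]
    have hx : (-(n : ℤ)) % 2 = 1 := by omega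
    constructor
    · rintro ⟨k, hk, hk2⟩
      obtain ⟨j, hj, hj'⟩ := En_of_E hodd k _ hx hk
      exact ⟨j, hj', (hR j).2 (by rw [hj]; exact hk2)⟩
    · rintro ⟨j, hj, hj2⟩
      obtain ⟨k, hk, hk'⟩ := E_of_En hodd j _ hx hj
      exact ⟨k, hk', by rw [← hk]; exact (hR j).1 hj2⟩
  have kbas : ∀ n : ℕ, 0 < n → n % 2 = 1 → ((∃ k, E Z k (-1 * (n : ℤ))) ↔ ∃ k : ℕ, Syr^[k] (-(n : ℤ)) ∈ Z) := by
    intro n hn ho
    have h5 := key (fun _ => True) (fun _ => True) (fun _ => Iff.rfl) n hn ho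
    simp only [and_true] at h5
    rw [h5]
    constructor
    · rintro ⟨k, hk⟩; exact ⟨k, hk.1⟩
    · intro hk
      classical
      exact ⟨Nat.find hk, Nat.find_spec hk, fun i hi => Nat.find_min hk hi⟩
  refine ⟨d, hpos ⟨y, hy, by omega, hy3⟩, ?_, ?_, fun q b x hq => ?_⟩
  · have h5 := Pool.Agent.H499R2.HL.dn_odd hE (Pool.Agent.H499R2.LT.Dn_iff (fun n _ => by
      rw [side_two]
      exact ⟨fun ⟨k, hk⟩ => ⟨k + 1, E_two hodd hk⟩, fun ⟨k, hk⟩ => by
        obtain ⟨k', _, h'⟩ := E_of_two hodd hk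
        exact ⟨k', h'⟩⟩) hE)
    refine Pool.Agent.H499R2.LT.Dn_iff (fun n hn => and_congr_right fun hn2 => ?_) h5
    exact kbas n hn hn2
  · exact independent_of (Pool.Agent.Q235.CO.Bd_odd hRL 0 (fun n hn ho => kbas n hn ho))
  · have h5 := hlaw q b hq x
    have e : d / (q : ℝ) * Pool.Agent.H499R2.ND.Phi x = d * NegativeOddArithmetic.Phi x / q := by
      unfold NegativeOddArithmetic.Phi
      rw [← Pool.Agent.H499R2.ND.phi_cdf]
      ring
    rw [e] at h5
    refine independent_of (Pool.Agent.Q235.CO.Bd_odd h5 0 (fun n hn ho => ?_))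
    unfold Level
    rw [bound_eq]
    refine key (fun j => (j : ℝ) ≤ Pool.Agent.H499R2.HL.bo x (Real.log n) ∧ (j : ℤ) ≡ b [ZMOD q])
      (fun o => (o : ℝ) ≤ Pool.Agent.H499R2.HL.bo x (Real.log n) ∧ o ≡ b [ZMOD q]) (fun j => ?_) n hn ho
    push_cast
    rfl

/-- BASINS AND ENTRANCE TIMES IN ARITHMETICAL TEST SETS. Every cycle `Z` of negative odd integers (known or not)
has a basin of positive natural density `δ Z`. In the sense of `Independent` (uniformly in all test sets):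
(1) the basin of `Z` has frequency `δ Z`, and the `N` whose orbits enter `Z` after `k ≡ b` modulo `q` steps, at
most `log |N| / log (4/3) + x log 2 √(2 log |N| / (log (4/3))^3)`, have frequency `δ Z Φ(x) / q`, `Φ` the standard
normal distribution function;
(2) the `N` for which the assertion of Q1 holds have frequency `δ C₁ + δ C₂ + δ C₃`, and this sum is `1`
if and only if Q1 is true;
(3) every set `S` of negative odd integers which contains `N` iff it contains `Syr N` (for example the set of the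
`N` with unbounded orbits) has a natural density `d`, this is its frequency, and `d = 0` (`d = 1`) only if `S`
is empty (contains all negative odd integers).
Let the test sets `E X` depend on `X` in any way. (4) JOINT LAWS: if the number of the odd `n ≤ X` in `E X` is
`(p + o(1)) X`, then the number of those with `-n` in the second class of (1) is `(δ Z Φ(x) / q p + o(1)) X`.
(5) SUFFICIENT SETS: if for some `κ > 0` and infinitely many `X` at least `κ X` of the odd `n ≤ X` are in `E X`,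
and for all but `o(X)` of these the orbit of `-n` enters one of the three known cycles, then Q1 is true; and the
same for any set `S` as in (3): if `-n ∈ S` for all but `o(X)` of these, then `S` contains all negative odd
integers. -/
theorem result :
    (∃ δ : Finset ℤ → ℝ,
      (∀ Z : Finset ℤ, IsCycle Z →
        0 < δ Z ∧ HasDensity (fun N => ∃ k : ℕ, Syr^[k] N ∈ Z) (δ Z) ∧
        Independent (fun N => ∃ k : ℕ, Syr^[k] N ∈ Z) (δ Z) ∧
        ∀ (q : ℕ) (b : ℤ) (x : ℝ), 1 ≤ q →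
          Independent (Level Z q b x) (δ Z * Phi x / q) ∧
          ∀ (d r k : ℕ) (E : ℕ → Set ℕ), (∀ X, IsTest d r k (E X)) → ∀ p : ℝ,
            Tendsto (fun X : ℕ => ((Odds X (E X)).card : ℝ) / X) atTop (𝓝 p) →
            Tendsto (fun X : ℕ => (Count X (Level Z q b x) (E X) : ℝ) / X) atTop
              (𝓝 (δ Z * Phi x / q * p))) ∧
      (IsCycle C₁ ∧ IsCycle C₂ ∧ IsCycle C₃ ∧
        Independent (fun N => ∃ k : ℕ, Syr^[k] N ∈ C₁ ∪ C₂ ∪ C₃) (δ C₁ + δ C₂ + δ C₃) ∧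
        (δ C₁ + δ C₂ + δ C₃ = 1 ↔ ∀ N, N < 0 → Odd N → ∃ k : ℕ, Syr^[k] N ∈ C₁ ∪ C₂ ∪ C₃))) ∧
    (∀ S : Set ℤ, (∀ N, N < 0 → Odd N → (N ∈ S ↔ Syr N ∈ S)) →
      (∃ d : ℝ, HasDensity (fun N => N ∈ S) d ∧ Independent (fun N => N ∈ S) d ∧
        (d = 0 ↔ ∀ N, N < 0 → Odd N → N ∉ S) ∧ (d = 1 ↔ ∀ N, N < 0 → Odd N → N ∈ S)) ∧
      ∀ (d r k : ℕ) (E : ℕ → Set ℕ), (∀ X, IsTest d r k (E X)) → ∀ (κ : ℝ) (ψ : ℕ → ℝ), 0 < κ →
        Tendsto ψ atTop (𝓝 0) →
        (∃ᶠ X : ℕ in atTop, κ * X ≤ (Odds X (E X)).card ∧ (Count X (fun N => N ∉ S) (E X) : ℝ) ≤ ψ X * X) →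
        ∀ N, N < 0 → Odd N → N ∈ S) ∧
    (∀ (d r k : ℕ) (E : ℕ → Set ℕ), (∀ X, IsTest d r k (E X)) → ∀ (κ : ℝ) (ψ : ℕ → ℝ), 0 < κ →
      Tendsto ψ atTop (𝓝 0) →
      (∃ᶠ X : ℕ in atTop, κ * X ≤ (Odds X (E X)).card ∧
        (Count X (fun N => ¬ ∃ k : ℕ, Syr^[k] N ∈ C₁ ∪ C₂ ∪ C₃) (E X) : ℝ) ≤ ψ X * X) →
      ∀ N, N < 0 → Odd N → ∃ k : ℕ, Syr^[k] N ∈ C₁ ∪ C₂ ∪ C₃) := by
  have hconv : ∀ S : Set ℤ, (∀ N, N < 0 → Odd N → (N ∈ S ↔ Syr N ∈ S)) →
      ∀ N : ℤ, N < 0 → N % 2 = 1 → (N ∈ S ↔ Pool.Agent.W26.HN.Sy N ∈ S) :=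
    fun S hS N hN hodd => hS N hN (Int.odd_iff.2 hodd)
  have hC : ∀ y ∈ C₁ ∪ C₂ ∪ C₃, Syr y ∈ C₁ ∪ C₂ ∪ C₃ := by
    intro y hy
    have h1 : ∀ {Z : Finset ℤ}, IsCycle Z → y ∈ Z → Syr y ∈ Z :=
      fun hZ hyZ => Pool.Agent.W26.HN.cyc_step hZ y hyZ
    rw [Finset.mem_union, Finset.mem_union] at hy ⊢
    rcases hy with (hy | hy) | hy
    · exact Or.inl (Or.inl (h1 cycle₁ hy))
    · exact Or.inl (Or.inr (h1 cycle₂ hy))
    · exact Or.inr (h1 cycle₃ hy)
  have hgen : ∀ S : Set ℤ, (∀ N, N < 0 → Odd N → (N ∈ S ↔ Syr N ∈ S)) →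
      (∃ d : ℝ, HasDensity (fun N => N ∈ S) d ∧ Independent (fun N => N ∈ S) d ∧
        (d = 0 ↔ ∀ N, N < 0 → Odd N → N ∉ S) ∧ (d = 1 ↔ ∀ N, N < 0 → Odd N → N ∈ S)) ∧
      ∀ (d r k : ℕ) (E : ℕ → Set ℕ), (∀ X, IsTest d r k (E X)) → ∀ (κ : ℝ) (ψ : ℕ → ℝ), 0 < κ →
        Tendsto ψ atTop (𝓝 0) →
        (∃ᶠ X : ℕ in atTop, κ * X ≤ (Odds X (E X)).card ∧ (Count X (fun N => N ∉ S) (E X) : ℝ) ≤ ψ X * X) →
        ∀ N, N < 0 → Odd N → N ∈ S := by
    intro S hS
    obtain ⟨d, h0, h1, hHD, hd, e0, e1⟩ := Pool.Agent.W26.HN.inv_density (hconv S hS)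
    have hI : Independent (fun N => N ∈ S) d := inv_rel (hconv S hS) h0 h1 hHD
    have e1' : d = 1 ↔ ∀ N, N < 0 → Odd N → N ∈ S := by
      rw [e1]
      exact forall_congr' fun N => forall_congr' fun _ => by rw [Int.odd_iff]
    refine ⟨⟨d, density_of hd, hI, ?_, e1'⟩, fun d' r k E hE κ ψ hκ hψ h => ?_⟩
    · rw [e0]
      exact forall_congr' fun N => forall_congr' fun _ => by rw [Int.odd_iff]
    · exact e1'.1 (hI.suff h1 hE hκ hψ h)
  refine ⟨?_, hgen, fun d r k E hE κ ψ hκ hψ h => ?_⟩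
  · classical
    have hex : ∀ Z : Finset ℤ, ∃ d : ℝ, Pool.Agent.W26.HN.IsCyc Z → 0 < d ∧
        Pool.Agent.H499R2.ND.Dn (fun n : ℕ => n % 2 = 1 ∧ -(n : ℤ) ∈ Pool.Agent.W26.HN.Ba Z) (d / 2) ∧
        Independent (fun N => ∃ k : ℕ, Syr^[k] N ∈ Z) d ∧
        (∀ (q : ℕ) (b : ℤ) (x : ℝ), 1 ≤ q → Independent (Level Z q b x) (d * Phi x / q)) := by
      intro Z
      by_cases hZ : Pool.Agent.W26.HN.IsCyc Z
      · obtain ⟨d, hd⟩ := one_cyc hZ
        exact ⟨d, fun _ => hd⟩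
      · exact ⟨0, fun h => absurd h hZ⟩
    choose δ hδ using hex
    refine ⟨δ, fun Z hZ => ?_, ?_⟩
    · obtain ⟨h0, h1, h2, h3⟩ := hδ Z hZ
      exact ⟨h0, density_of h1, h2, fun q b x hq => ⟨h3 q b x hq, fun d r k E hE p hp => (h3 q b x hq).lim hE hp⟩⟩
    · have hinv : ∀ N : ℤ, N < 0 → N % 2 = 1 → (N ∈ Pool.Agent.W26.HN.Ba (C₁ ∪ C₂ ∪ C₃) ↔
          Pool.Agent.W26.HN.Sy N ∈ Pool.Agent.W26.HN.Ba (C₁ ∪ C₂ ∪ C₃)) :=
        fun N _ _ => Pool.Agent.W26.HN.Ba_inv hC N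
      obtain ⟨d, h0, h01, hHD, hd, _, h1⟩ := Pool.Agent.W26.HN.inv_density hinv
      have h12 : C₁ ≠ C₂ := by decide
      have h13 : C₁ ≠ C₃ := by decide
      have h23 : C₂ ≠ C₃ := by decide
      have hcy : ∀ Z ∈ ({C₁, C₂, C₃} : Finset (Finset ℤ)), IsCycle Z := by
        intro Z hZ
        rw [Finset.mem_insert, Finset.mem_insert, Finset.mem_singleton] at hZ
        rcases hZ with rfl | rfl | rfl
        · exact cycle₁
        · exact cycle₂
        · exact cycle₃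
      have h2 := Pool.Agent.H499R2.LT.Dn_sum ({C₁, C₂, C₃} : Finset (Finset ℤ))
        (fun Z n => n % 2 = 1 ∧ -(n : ℤ) ∈ Pool.Agent.W26.HN.Ba Z) (fun Z => δ Z / 2)
        (fun Z hZ => (hδ Z (hcy Z hZ)).2.1) (by
          rintro n Z hZ Z' hZ' ⟨_, k, hk⟩ ⟨_, k', hk'⟩
          exact Pool.Agent.W26.HN.cyc_eq (hcy Z hZ) (hcy Z' hZ') hk hk')
      have h3 : Pool.Agent.H499R2.ND.Dn (fun n : ℕ => n % 2 = 1 ∧
          -(n : ℤ) ∈ Pool.Agent.W26.HN.Ba (C₁ ∪ C₂ ∪ C₃)) ((δ C₁ + δ C₂ + δ C₃) / 2) := by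
        rw [Finset.sum_insert (by
          rw [Finset.mem_insert, Finset.mem_singleton]
          rintro (h | h)
          · exact h12 h
          · exact h13 h), Finset.sum_insert (by
          rw [Finset.mem_singleton]; exact h23), Finset.sum_singleton] at h2
        have e : δ C₁ / 2 + (δ C₂ / 2 + δ C₃ / 2) = (δ C₁ + δ C₂ + δ C₃) / 2 := by ring
        rw [e] at h2
        refine Pool.Agent.H499R2.LT.Dn_iff (fun n _ => ?_) h2
        constructor
        · rintro ⟨Z, hZ, h4, k, hk⟩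
          refine ⟨h4, k, ?_⟩
          rw [Finset.mem_union, Finset.mem_union]
          rw [Finset.mem_insert, Finset.mem_insert, Finset.mem_singleton] at hZ
          rcases hZ with rfl | rfl | rfl
          · exact Or.inl (Or.inl hk)
          · exact Or.inl (Or.inr hk)
          · exact Or.inr hk
        · rintro ⟨h4, k, hk⟩
          rw [Finset.mem_union, Finset.mem_union] at hk
          rcases hk with (hk | hk) | hk
          · exact ⟨C₁, by simp, h4, k, hk⟩
          · exact ⟨C₂, by simp, h4, k, hk⟩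
          · exact ⟨C₃, by simp, h4, k, hk⟩
      have h4 : d = δ C₁ + δ C₂ + δ C₃ := by
        have := tendsto_nhds_unique hd h3
        linarith
      refine ⟨cycle₁, cycle₂, cycle₃, ?_, ?_⟩
      · rw [← h4]
        exact inv_rel hinv h0 h01 hHD
      · rw [← h4, h1]
        exact forall_congr' fun N => forall_congr' fun _ => by rw [Int.odd_iff]; exact Iff.rfl
  · have h1 := (hgen {N : ℤ | ∃ k : ℕ, Syr^[k] N ∈ C₁ ∪ C₂ ∪ C₃} (fun N _ _ => Pool.Agent.W26.HN.Ba_inv hC N)).2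
      d r k E hE κ ψ hκ hψ h
    exact h1

end Pool.Agent.Results.MP_005f52_nt.NegativeOddArithmetic
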