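import Pool.Agent.Q163.WD.Neg
import Pool.Agent.Q163.WD.OddBdh

set_option autoImplicit false

/-!
# The orbits of the Syracuse map on the negative odd integers in classes to large moduli

Let `S` be a set of negative odd integers which is invariant under the Syracuse map (the basin of a cycle,
the set of the divergent orbits, the complement of the basins of the known cycles, ...). A theorem of
Barban-Davenport-Halberstam type holds for `S` in the odd classes modulo `2 q`, for `q` up to a small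
multiple of `N`. If one orbit does not enter the three known cycles, then almost all odd classes to almost
all moduli `2 q` contain an `n ≤ K q` such that the orbit of `-n` does not enter them.
-/

namespace Pool.Agent.Results.MP_005f52_nt.ResidueClasses

open Filter Topology

/-- The Syracuse map. -/
def Syr (N : ℤ) : ℤ := (3 * N + 1) / 2 ^ padicValInt 2 (3 * N + 1)

/-- `S` is invariant under the Syracuse map, among the negative odd integers. -/
def Invariant (S : Set ℤ) : Prop := ∀ N : ℤ, N < 0 → Odd N → (N ∈ S ↔ Syr N ∈ S)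

/-- The union of the three known cycles. -/
def Known : Finset ℤ := {-1, -5, -7, -17, -25, -37, -55, -41, -61, -91}

/-- The integers whose orbit enters one of the known cycles. -/
def Basin : Set ℤ := {N | ∃ k : ℕ, Syr^[k] N ∈ Known}

/-- The number of the odd `n ≤ N` with `-n ∈ S`. -/
noncomputable def total (S : Set ℤ) (N : ℕ) : ℕ := {n : ℕ | n % 2 = 1 ∧ n ≤ N ∧ -(n : ℤ) ∈ S}.ncard

/-- The number of the odd `n ≤ N`, `n ≡ b` modulo `2 q`, with `-n ∈ S`. -/
noncomputable def count (S : Set ℤ) (N q b : ℕ) : ℕ :=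
  {n : ℕ | n % 2 = 1 ∧ n ≤ N ∧ n ≡ b [MOD 2 * q] ∧ -(n : ℤ) ∈ S}.ncard

/-- The pairs `(q, b)`, `Q ≤ q < 2 Q`, `b < 2 q` odd, such that `-n ∈ S` for no (odd) `n ≤ X`, `n ≡ b`
modulo `2 q`. -/
def Missed (S : Set ℤ) (X Q : ℕ) : Set (ℕ × ℕ) :=
  {p : ℕ × ℕ | Q ≤ p.1 ∧ p.1 < 2 * Q ∧ p.2 % 2 = 1 ∧ p.2 < 2 * p.1 ∧
    ∀ n : ℕ, n ≤ X → n ≡ p.2 [MOD 2 * p.1] → -(n : ℤ) ∉ S}

/-! ### proofs -/

open Pool.Agent.Q163.WD.Neg (Lift lift_odd' lift_inv sinv_known sinv_compl)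
open Pool.Agent.Q163.WD.OddBdh (oddCount oddAll oddMissed bdh_odd missed_odd pairs_odd mod_odd)

theorem lift_A {S : Set ℤ} (hS : Invariant S) : MP_edb5be_nt.AlmostAllClasses.Invariant (Lift S) :=
  fun x => lift_inv hS x

theorem count_eq (S : Set ℤ) (N q b : ℕ) : oddCount (-1) (Lift S) N q b = count S N q b := by
  unfold oddCount count
  congr 1
  ext n
  simp only [Set.mem_ofPred_eq]
  refine and_congr_right fun h => ?_
  rw [lift_odd' S h]

theorem total_eq (S : Set ℤ) (N : ℕ) : oddAll (-1) (Lift S) N = total S N := by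
  unfold oddAll total
  congr 1
  ext n
  simp only [Set.mem_ofPred_eq]
  refine and_congr_right fun h => ?_
  rw [lift_odd' S h]

theorem missed_eq (S : Set ℤ) (X Q : ℕ) : oddMissed (-1) (Lift S) X Q = Missed S X Q := by
  ext ⟨q, b⟩
  unfold oddMissed Missed
  simp only [Set.mem_ofPred_eq]
  refine and_congr_right fun _ => and_congr_right fun _ => and_congr_right fun hb =>
    and_congr_right fun _ => forall_congr' fun n => forall_congr' fun _ => forall_congr' fun h => ?_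
  rw [lift_odd' S ((mod_odd h).trans hb)]

theorem basin_inv : Invariant Basin := sinv_known

/-- **The theorem.** (0) `Basin` is invariant; the complement of an invariant set is invariant.
(1) For all `ε > 0` and `N ≥ N₀`, for ALL invariant sets `S` and all `Q ≥ 1` the sum over all
`Q ≤ q < 2 Q` and all odd classes `b` modulo `2 q` of the squares of the differences between the number of
the odd `n ≤ N` with `-n ∈ S`, `n ≡ b` modulo `2 q`, and the `q`-th part of the number of all odd `n ≤ N`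
with `-n ∈ S` is at most `ε N ^ 2 + 1152 Q N`.
(2) If `S` is invariant and contains a negative odd integer, then for every `ε > 0` there is `K` such that
for all but `ε Q ^ 2` of the pairs `(q, b)`, `Q ≤ q < 2 Q`, `b < 2 q` odd, there is `n ≤ K Q`, `n ≡ b`
modulo `2 q`, with `-n ∈ S`.
(3) THE QUESTION. For every invariant set `S`: all negative odd integers are in `S` if and only if for some
`κ > 0` and all `K` there are arbitrarily large `Q` and at least `κ Q ^ 2` pairs `(q, b)`, `Q ≤ q < 2 Q`,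
`b < 2 q` odd, such that `-n ∈ S` for all (at most `K`) integers `n ≤ K Q`, `n ≡ b` modulo `2 q`.
In particular this holds for the set of the integers whose orbit enters one of the three known cycles. -/
theorem result :
    (Invariant Basin ∧ ∀ S : Set ℤ, Invariant S → Invariant Sᶜ) ∧
    -- (1) the variance
    (∀ ε : ℝ, 0 < ε → ∃ N₀ : ℕ, ∀ S : Set ℤ, Invariant S → ∀ N : ℕ, N₀ ≤ N → ∀ Q : ℕ, 1 ≤ Q →
      ∑ q ∈ Finset.Ico Q (2 * Q), ∑ b ∈ (Finset.range (2 * q)).filter (fun b => b % 2 = 1),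
        ((count S N q b : ℝ) - total S N / q) ^ 2 ≤ ε * N ^ 2 + 1152 * Q * N) ∧
    -- (2) small members of almost all classes
    (∀ S : Set ℤ, Invariant S → (∃ x ∈ S, x < 0 ∧ Odd x) → ∀ ε : ℝ, 0 < ε → ∃ K Q₀ : ℕ,
      ∀ Q : ℕ, Q₀ ≤ Q → ((Missed S (K * Q) Q).ncard : ℝ) ≤ ε * Q ^ 2) ∧
    -- (3) the question
    (∀ S : Set ℤ, Invariant S → ((∀ x : ℤ, x < 0 → Odd x → x ∈ S) ↔
      ∃ κ : ℝ, 0 < κ ∧ ∀ K Q₀ : ℕ, ∃ Q : ℕ, Q₀ ≤ Q ∧
        κ * Q ^ 2 ≤ ((Missed Sᶜ (K * Q) Q).ncard : ℝ))) ∧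
    ((∀ x : ℤ, x < 0 → Odd x → ∃ k : ℕ, Syr^[k] x ∈ Known) ↔
      ∃ κ : ℝ, 0 < κ ∧ ∀ K Q₀ : ℕ, ∃ Q : ℕ, Q₀ ≤ Q ∧
        κ * Q ^ 2 ≤ ((Missed Basinᶜ (K * Q) Q).ncard : ℝ)) := by
  have hsmall : ∀ S : Set ℤ, Invariant S → (∃ x ∈ S, x < 0 ∧ Odd x) → ∀ ε : ℝ, 0 < ε → ∃ K Q₀ : ℕ,
      ∀ Q : ℕ, Q₀ ≤ Q → ((Missed S (K * Q) Q).ncard : ℝ) ≤ ε * Q ^ 2 := by
    rintro S hS ⟨x, hx, h0, hodd⟩ ε hε
    obtain ⟨K, Q₀, h⟩ := missed_odd (s := -1) (lift_A hS) (Or.inr rfl)
      ⟨x, (Pool.Agent.Q163.WD.Neg.lift_odd S h0 (Int.odd_iff.1 hodd)).2 hx, by omega⟩ hε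
    refine ⟨K, Q₀, fun Q hQ => ?_⟩
    rw [← missed_eq]
    exact h Q hQ
  have hq : ∀ S : Set ℤ, Invariant S → ((∀ x : ℤ, x < 0 → Odd x → x ∈ S) ↔
      ∃ κ : ℝ, 0 < κ ∧ ∀ K Q₀ : ℕ, ∃ Q : ℕ, Q₀ ≤ Q ∧
        κ * Q ^ 2 ≤ ((Missed Sᶜ (K * Q) Q).ncard : ℝ)) := by
    intro S hS
    constructor
    · intro hall
      refine ⟨1, one_pos, fun K Q₀ => ⟨Q₀, le_rfl, ?_⟩⟩
      have e1 : Missed Sᶜ (K * Q₀) Q₀ =
          {p : ℕ × ℕ | Q₀ ≤ p.1 ∧ p.1 < 2 * Q₀ ∧ p.2 % 2 = 1 ∧ p.2 < 2 * p.1} := by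
        ext ⟨q, b⟩
        constructor
        · rintro ⟨g1, g2, g3, g4, _⟩
          exact ⟨g1, g2, g3, g4⟩
        · rintro ⟨g1, g2, g3, g4⟩
          refine ⟨g1, g2, g3, g4, fun n _ hnb => ?_⟩
          have hn : n % 2 = 1 := (mod_odd hnb).trans g3
          exact not_not.2 (hall (-(n : ℤ)) (by omega) (Int.odd_iff.2 (by omega)))
      rw [e1, one_mul]
      exact_mod_cast pairs_odd Q₀
    · rintro ⟨κ, hκ, hmiss⟩ x h0 hodd
      by_contra hcon
      obtain ⟨K, Q₀, h3⟩ := hsmall Sᶜ (sinv_compl hS) ⟨x, hcon, h0, hodd⟩ (κ / 2) (by positivity)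
      obtain ⟨Q, hQ, h4⟩ := hmiss K (max Q₀ 1)
      have h5 := h3 Q ((le_max_left _ _).trans hQ)
      have hQ1 : 1 ≤ Q := (le_max_right _ _).trans hQ
      have hQ0 : (0 : ℝ) < Q := by exact_mod_cast hQ1
      have : 0 < κ * (Q : ℝ) ^ 2 := by positivity
      linarith
  refine ⟨⟨basin_inv, fun S hS => sinv_compl hS⟩, ?_, hsmall, hq, hq Basin basin_inv⟩
  intro ε hε
  obtain ⟨N₀, h⟩ := bdh_odd hε
  refine ⟨N₀, fun S hS N hN Q hQ => ?_⟩
  have h3 := h (Lift S) (lift_A hS) (-1) (Or.inr rfl) N hN Q hQ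
  simp only [count_eq, total_eq] at h3
  exact h3

end Pool.Agent.Results.MP_005f52_nt.ResidueClasses
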