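import Pool.Agent.Q163.WD.Neg
import Pool.Agent.Q163.WD.OddErg
import Pool.Agent.Q163.WD.OddWar

set_option autoImplicit false

/-!
# Waring's problem with an element of a basin of the Syracuse map on the negative odd integers

Let `S` be a set of negative odd integers which is invariant under the Syracuse map (the basin of a cycle,
the set of the divergent orbits, the complement of the basins of the known cycles, ...). If `S` is not
empty, then for every `k` every large integer is a sum of `|x|`, `x ∈ S`, and of `r(k)` positive `k`-th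
powers, and the number of the representations is asymptotically the expected one. All orbits enter the three
known cycles if and only if infinitely many integers are not sums of an `|x|`, such that the orbit of `x`
does not enter them, and of `r` positive `k`-th powers.
-/

namespace Pool.Agent.Results.MP_005f52_nt.WaringProblem

open Filter Topology

/-- The Syracuse map. -/
def Syr (N : ℤ) : ℤ := (3 * N + 1) / 2 ^ padicValInt 2 (3 * N + 1)

/-- `S` is invariant under the Syracuse map, among the negative odd integers. -/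
def Invariant (S : Set ℤ) : Prop := ∀ N : ℤ, N < 0 → Odd N → (N ∈ S ↔ Syr N ∈ S)

/-- The union of the three known cycles. -/
def Known : Finset ℤ := {-1, -5, -7, -17, -25, -37, -55, -41, -61, -91}

/-- The integers whose orbit enters one of the known cycles. -/
def Basin : Set ℤ := {N | ∃ k : ℕ, Syr^[k] N ∈ Known}

/-- The number of the `n` in `[1, N]` such that the `n`-th negative odd number `-(2 n - 1)` is in `S`. -/
noncomputable def number (S : Set ℤ) (N : ℕ) : ℕ :=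
  {n : ℕ | 1 ≤ n ∧ n ≤ N ∧ -(2 * (n : ℤ) - 1) ∈ S}.ncard

/-- The number of the `(r + 1)`-tuples `m`, `1 ≤ m j ≤ L`, such that `n` is the sum of `|x|` for a negative
`x ∈ S`, of `(2 m 0 + e) ^ k` and of the `(2 m j) ^ k`, `j ≥ 1`; here `e = 0` or `1`, `n - e` odd, so that
`x` is odd. -/
noncomputable def tuples (S : Set ℤ) (k r n L : ℕ) : ℕ :=
  {m : Fin (r + 1) → ℕ | (∀ j, 1 ≤ m j ∧ m j ≤ L) ∧ ∃ x ∈ S, x < 0 ∧
    (n : ℤ) = |x| + (2 * (m 0 : ℤ) + ((n + 1) % 2 : ℕ)) ^ k + ∑ j : Fin r, (2 * (m j.succ : ℤ)) ^ k}.ncard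

/-- `n` is a sum of `|x|`, where `x ∈ S` is negative and odd, and of `r` positive `k`-th powers. -/
def IsSum (S : Set ℤ) (k r n : ℕ) : Prop :=
  ∃ x ∈ S, x < 0 ∧ Odd x ∧ ∃ m : Fin r → ℕ, (∀ j, 1 ≤ m j) ∧ (n : ℤ) = |x| + ∑ j, (m j : ℤ) ^ k

/-! ### proofs -/

open Pool.Agent.Q163.WD.Neg (Lift lift_inv lift_odd sinv_known sinv_compl)
open Pool.Agent.Q163.WD.OddErg (oind)

theorem lift_P {S : Set ℤ} (hS : Invariant S) : MP_edb5be_nt.PointwiseErgodicTheorem.Invariant (Lift S) :=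
  fun x => lift_inv hS x

theorem lift_W {S : Set ℤ} (hS : Invariant S) : MP_d02c56_nt.WaringProblem.Invariant (Lift S) :=
  fun x => Pool.Agent.Q163.WD.Pos.inv_C (S := Lift S) (fun x => lift_inv hS x) x

theorem num_eq (S : Set ℤ) (N : ℕ) : ∑ n ∈ Finset.Icc 1 N, oind (-1) (Lift S) n = number S N := by
  classical
  unfold number
  have e3 : {n : ℕ | 1 ≤ n ∧ n ≤ N ∧ -(2 * (n : ℤ) - 1) ∈ S} =
      ((Finset.Icc 1 N).filter (fun n : ℕ => -(2 * (n : ℤ) - 1) ∈ S) : Finset ℕ) := by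
    ext n
    simp only [Set.mem_ofPred_eq, Finset.coe_filter, Finset.mem_Icc, and_assoc]
  rw [e3, Set.ncard_coe_finset, Finset.card_filter]
  push_cast
  apply Finset.sum_congr rfl
  intro n hn
  rw [Finset.mem_Icc] at hn
  unfold oind
  have h : (-1) * (2 * (n : ℤ) - 1) ∈ Lift S ↔ -(2 * (n : ℤ) - 1) ∈ S := by
    rw [neg_one_mul]
    exact lift_odd S (by omega) (by omega)
  by_cases h1 : -(2 * (n : ℤ) - 1) ∈ S
  · rw [if_pos h1, Set.indicator_of_mem (h.2 h1)]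
  · rw [if_neg h1, Set.indicator_of_notMem (fun h2 => h1 (h.1 h2))]

theorem tuples_eq (S : Set ℤ) {k : ℕ} (hk : 1 ≤ k) (r n L : ℕ) :
    Pool.Agent.Q163.WD.OddWar.tuples (-1) (Lift S) k r n L = tuples S k r n L := by
  unfold Pool.Agent.Q163.WD.OddWar.tuples tuples
  congr 1
  ext m
  simp only [Set.mem_ofPred_eq, neg_one_mul]
  refine and_congr_right fun _ => ?_
  have hodd := Pool.Agent.Q163.WD.OddWar.rest_odd hk n m
  have hrest : (n : ℤ) = Pool.Agent.Q163.WD.OddWar.rest k n m + (2 * (m 0 : ℤ) + ((n + 1) % 2 : ℕ)) ^ k +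
      ∑ j : Fin r, (2 * (m j.succ : ℤ)) ^ k := by
    unfold Pool.Agent.Q163.WD.OddWar.rest
    ring
  constructor
  · intro h
    have h0 : -Pool.Agent.Q163.WD.OddWar.rest k n m < 0 := h.1
    refine ⟨-Pool.Agent.Q163.WD.OddWar.rest k n m, (lift_odd S h0 (by omega)).1 h, h0, ?_⟩
    rw [abs_of_neg h0, neg_neg]
    exact hrest
  · rintro ⟨x, hx, h0, he⟩
    rw [abs_of_neg h0] at he
    have hx' : -Pool.Agent.Q163.WD.OddWar.rest k n m = x := by linarith
    rw [hx']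
    exact (lift_odd S h0 (by omega)).2 hx

theorem basin_inv : Invariant Basin := sinv_known

/-- **The theorem.** (0) `Basin` is invariant; the complement of an invariant set is invariant.
(1) For every `k` and `r ≥ r₀(k)`, all `B` and `ε > 0`, for `n ≥ n₀`, for ALL invariant sets `S`, of density
`δ` among the negative odd integers (it exists, and is positive if `S` contains a negative odd integer), and
for all `L` with `(r + 1) (2 L + 1) ^ k < n ≤ B L ^ k`, the number of the representations of `n` as a sum of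
`|x|`, `x ∈ S` negative and odd, and of `k`-th powers of `2 m 0 + e`, `2 m 1`, ..., `2 m r`,
`1 ≤ m j ≤ L`, where `e = 0` or `1`, is `δ L ^ (r + 1)` up to `ε L ^ (r + 1)`.
(2) For every `k` there is `r₀` such that for `r ≥ r₀`: if `S` is invariant and contains a negative odd
integer, every large integer is a sum of `|x|`, `x ∈ S` negative and odd, and of `r` positive `k`-th powers.
(3) THE QUESTION. For every invariant set `S`: all negative odd integers are in `S` if and only if for some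
`k`, for infinitely many `r`, there are infinitely many `n` which are not sums of `|x|`, `x ∉ S` negative
and odd, and of `r` positive `k`-th powers. In particular this holds for the set of the integers whose orbit
enters one of the three known cycles. -/
theorem result :
    (Invariant Basin ∧ ∀ S : Set ℤ, Invariant S → Invariant Sᶜ) ∧
    -- (1) the number of the representations
    (∀ k : ℕ, 1 ≤ k → ∃ r₀ : ℕ, ∀ r : ℕ, r₀ ≤ r → ∀ (B : ℕ) (ε : ℝ), 0 < ε → ∃ n₀ : ℕ,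
      ∀ S : Set ℤ, Invariant S → ∃ δ : ℝ,
        Tendsto (fun N : ℕ => (number S N : ℝ) / N) atTop (𝓝 δ) ∧ ((∃ y ∈ S, y < 0 ∧ Odd y) → 0 < δ) ∧
        ∀ n : ℕ, n₀ ≤ n → ∀ L : ℕ, (r + 1) * (2 * L + 1) ^ k < n → n ≤ B * L ^ k →
          |(tuples S k r n L : ℝ) - δ * (L : ℝ) ^ (r + 1)| ≤ ε * (L : ℝ) ^ (r + 1)) ∧
    -- (2) every large integer is a sum
    (∀ k : ℕ, 1 ≤ k → ∃ r₀ : ℕ, ∀ r : ℕ, r₀ ≤ r → ∀ S : Set ℤ, Invariant S →
      (∃ y ∈ S, y < 0 ∧ Odd y) → ∃ n₀ : ℕ, ∀ n : ℕ, n₀ ≤ n → IsSum S k r n) ∧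
    -- (3) the question
    (∀ S : Set ℤ, Invariant S → ((∀ y : ℤ, y < 0 → Odd y → y ∈ S) ↔
      ∃ k : ℕ, 1 ≤ k ∧ ∃ᶠ r : ℕ in atTop, ∃ᶠ n : ℕ in atTop, ¬ IsSum Sᶜ k r n)) ∧
    ((∀ y : ℤ, y < 0 → Odd y → ∃ k : ℕ, Syr^[k] y ∈ Known) ↔
      ∃ k : ℕ, 1 ≤ k ∧ ∃ᶠ r : ℕ in atTop, ∃ᶠ n : ℕ in atTop, ¬ IsSum Basinᶜ k r n) := by
  have hne : ∀ S : Set ℤ, (∃ y ∈ S, y < 0 ∧ Odd y) → ∃ y ∈ Lift S, 0 < (-1) * y := by
    rintro S ⟨y, hy, h0, hodd⟩
    exact ⟨y, (lift_odd S h0 (Int.odd_iff.1 hodd)).2 hy, by omega⟩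
  have hnum : ∀ S : Set ℤ, Invariant S → ∀ δ : ℝ,
      MP_edb5be_nt.PointwiseErgodicTheorem.HasDensity (-1) (Lift S) δ →
      Tendsto (fun N : ℕ => (number S N : ℝ) / N) atTop (𝓝 δ) := by
    intro S hS δ hδ
    have h := Pool.Agent.Q163.WD.OddErg.odd_number (Or.inr rfl) (lift_P hS) hδ
    refine h.congr fun N => ?_
    rw [num_eq]
  have hsum : ∀ k : ℕ, 1 ≤ k → ∃ r₀ : ℕ, ∀ r : ℕ, r₀ ≤ r → ∀ S : Set ℤ, Invariant S →
      (∃ y ∈ S, y < 0 ∧ Odd y) → ∃ n₀ : ℕ, ∀ n : ℕ, n₀ ≤ n → IsSum S k r n := by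
    intro k hk1
    obtain ⟨r₀, h⟩ := Pool.Agent.Q163.WD.OddWar.odd_sums hk1
    refine ⟨r₀ + 1, fun r hr S hS hn => ?_⟩
    obtain ⟨δ, hδ0, hδ⟩ := Pool.Agent.Q163.WD.Pos.dens_pos (s := -1) (Or.inr rfl) (S := Lift S)
      (fun x => lift_inv hS x) (hne S hn)
    obtain ⟨n₀, hn₀⟩ := h (r - 1) (by omega) (-1) (Or.inr rfl) (Lift S) (lift_W hS) δ hδ hδ0
    refine ⟨n₀, fun n hn' => ?_⟩
    obtain ⟨x, hx1, hx2, m, hm1, hm2⟩ := hn₀ n hn'
    rw [neg_one_mul] at hx2
    have hr1 : r - 1 + 1 = r := by omega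
    have hx0 : -(x : ℤ) < 0 := by omega
    refine ⟨-(x : ℤ), (lift_odd S hx0 (by omega)).1 hx2, hx0, Int.odd_iff.2 (by omega),
      fun j => m (Fin.cast hr1.symm j), fun j => hm1 _, ?_⟩
    rw [abs_of_neg hx0, neg_neg, hm2]
    push_cast
    congr 1
    exact (Equiv.sum_comp (finCongr hr1.symm) (fun j => (m j : ℤ) ^ k)).symm
  have hq : ∀ S : Set ℤ, Invariant S → ((∀ y : ℤ, y < 0 → Odd y → y ∈ S) ↔
      ∃ k : ℕ, 1 ≤ k ∧ ∃ᶠ r : ℕ in atTop, ∃ᶠ n : ℕ in atTop, ¬ IsSum Sᶜ k r n) := by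
    intro S hS
    constructor
    · intro hall
      refine ⟨1, le_rfl, Filter.Frequently.of_forall fun r => Filter.Frequently.of_forall fun n => ?_⟩
      rintro ⟨x, hx, h0, hodd, -⟩
      exact hx (hall x h0 hodd)
    · rintro ⟨k, hk1, hfr⟩ y h0 hodd
      by_contra hcon
      obtain ⟨r₀, h⟩ := hsum k hk1
      obtain ⟨r, hr, hr2⟩ := (hfr.and_eventually (eventually_ge_atTop r₀)).exists
      obtain ⟨n₀, hn₀⟩ := h r hr2 Sᶜ (sinv_compl hS) ⟨y, hcon, h0, hodd⟩
      obtain ⟨n', hn1, hn2⟩ := (hr.and_eventually (eventually_ge_atTop n₀)).exists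
      exact hn1 (hn₀ n' hn2)
  refine ⟨⟨basin_inv, fun S hS => sinv_compl hS⟩, ?_, hsum, hq, hq Basin basin_inv⟩
  intro k hk1
  obtain ⟨r₀, h⟩ := Pool.Agent.Q163.WD.OddWar.odd_waring hk1
  refine ⟨r₀, fun r hr B ε hε => ?_⟩
  obtain ⟨n₀, hn₀⟩ := h r hr (-1) (Or.inr rfl) B ε hε
  refine ⟨n₀, fun S hS => ?_⟩
  obtain ⟨δ, hδ, h3⟩ := hn₀ (Lift S) (lift_W hS)
  refine ⟨δ, hnum S hS δ hδ, fun hn => ?_, fun n hn L hL1 hL2 => ?_⟩
  · obtain ⟨δ', hδ0, hδ'⟩ := Pool.Agent.Q163.WD.Pos.dens_pos (s := -1) (Or.inr rfl) (S := Lift S)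
      (fun x => lift_inv hS x) (hne S hn)
    rwa [tendsto_nhds_unique hδ hδ']
  · rw [← tuples_eq S hk1]
    exact h3 n hn L hL1 hL2

end Pool.Agent.Results.MP_005f52_nt.WaringProblem
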